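import Mathlib

/-!
Failure of the cancellation law for translation equidecomposability on the circle group, with
pieces from a translation invariant algebra of Borel sets.

Let `s = 1/2` in `ℝ/ℤ`. The algebra consists of the Borel sets `S` that contain the antipode
`x + s` of all but finitely many of their points `x` (and similarly for the complement). The number
of points `x` of `S` with `x + s` outside `S`, taken modulo two, is additive on disjoint unions and
translation invariant. It separates `L = {n a, n a + s : n ≥ 0}` from `L ∪ {-a}`, while two copies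
of these sets are equidecomposable.
-/

set_option autoImplicit false

namespace Pool.Agent.Results.MP_59868e_an.CircleBorel

open Set

section defs

variable {X : Type} [AddCommGroup X]

/-- The translate of the set `S` by `t`. -/
def shift (t : X) (S : Set X) : Set X := (fun x => x + t) '' S

/-- `A ∼ B`: partitions of `A` and `B` into finitely many pieces from `𝒜`, the pieces of `B` being
translates of the pieces of `A`. -/
def Equi (𝒜 : Set (Set X)) (A B : Set X) : Prop :=
  ∃ (k : ℕ) (P : Fin k → Set X) (g : Fin k → X),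
    (∀ i, P i ∈ 𝒜) ∧ (∀ i, shift (g i) (P i) ∈ 𝒜) ∧
    (Pairwise fun i j => Disjoint (P i) (P j)) ∧ (⋃ i, P i) = A ∧
    (Pairwise fun i j => Disjoint (shift (g i) (P i)) (shift (g j) (P j))) ∧
    (⋃ i, shift (g i) (P i)) = B

/-- `n[A] = n[B]`: finitely many pieces `C i × {u i}` partition `A × {0, …, n-1}`, and the pieces
`(C i + g i) × {v i}` partition `B × {0, …, n-1}`, all `C i` and `C i + g i` lying in `𝒜`. -/
def EquiMul (𝒜 : Set (Set X)) (n : ℕ) (A B : Set X) : Prop :=
  ∃ (k : ℕ) (C : Fin k → Set X) (g : Fin k → X) (u v : Fin k → ℕ),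
    (∀ i, C i ∈ 𝒜) ∧ (∀ i, shift (g i) (C i) ∈ 𝒜) ∧
    (Pairwise fun i j => Disjoint (C i ×ˢ ({u i} : Set ℕ)) (C j ×ˢ ({u j} : Set ℕ))) ∧
    (⋃ i, C i ×ˢ ({u i} : Set ℕ)) = A ×ˢ Set.Iio n ∧
    (Pairwise fun i j =>
      Disjoint (shift (g i) (C i) ×ˢ ({v i} : Set ℕ)) (shift (g j) (C j) ×ˢ ({v j} : Set ℕ))) ∧
    (⋃ i, shift (g i) (C i) ×ˢ ({v i} : Set ℕ)) = B ×ˢ Set.Iio n

/-- The cancellation law for the group of all translations of `X` and the algebra `𝒜`. -/
def Cancellation (𝒜 : Set (Set X)) : Prop :=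
  ∀ A ∈ 𝒜, ∀ B ∈ 𝒜, ∀ n : ℕ, 1 ≤ n → EquiMul 𝒜 n A B → Equi 𝒜 A B

end defs

section general

variable {X : Type} [AddCommGroup X]

theorem mem_shift {t x : X} {S : Set X} : x ∈ shift t S ↔ x - t ∈ S := by
  constructor
  · rintro ⟨y, hy, rfl⟩
    simpa using hy
  · intro h
    exact ⟨x - t, h, by simp⟩

/-- points of `S` whose antipode is outside `S` -/
def bd (s : X) (S : Set X) : Set X := {x | x ∈ S ∧ x + s ∉ S}

theorem bd_shift (s t : X) (S : Set X) : bd s (shift t S) = shift t (bd s S) := by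
  ext x
  simp only [bd, mem_shift, mem_ofPred_eq]
  rw [show x + s - t = x - t + s by abel]

theorem ncard_shift (t : X) (S : Set X) : (shift t S).ncard = S.ncard :=
  Set.ncard_image_of_injective S (add_left_injective t)

theorem finite_shift (t : X) {S : Set X} (h : S.Finite) : (shift t S).Finite := h.image _

theorem bd_compl {s : X} (hs : s + s = 0) (S : Set X) : bd s Sᶜ = shift s (bd s S) := by
  ext x
  have e1 : x - s = x + s := by
    rw [sub_eq_add_neg, neg_eq_of_add_eq_zero_left hs]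
  have e2 : x + s + s = x := by rw [add_assoc, hs, add_zero]
  simp only [bd, mem_shift, mem_ofPred_eq, mem_compl_iff, not_not, e1, e2]
  tauto

theorem bd_union_subset (s : X) (S T : Set X) : bd s (S ∪ T) ⊆ bd s S ∪ bd s T := by
  rintro x ⟨h1 | h1, h2⟩
  · exact Or.inl ⟨h1, fun h => h2 (Or.inl h)⟩
  · exact Or.inr ⟨h1, fun h => h2 (Or.inr h)⟩

/-- additivity modulo two -/
theorem bd_add {s : X} (hs : s + s = 0) {S T : Set X} (hS : (bd s S).Finite)
    (hT : (bd s T).Finite) (hd : Disjoint S T) :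
    ((bd s (S ∪ T)).ncard : ZMod 2) = (bd s S).ncard + (bd s T).ncard := by
  have e2 : ∀ x : X, x + s + s = x := fun x => by rw [add_assoc, hs, add_zero]
  have hd' : ∀ x, x ∈ S → x ∉ T := fun x h1 h2 => Set.disjoint_left.1 hd h1 h2
  set U : Set X := {x | x ∈ S ∧ x + s ∈ T} with hU
  set V : Set X := {x | x ∈ T ∧ x + s ∈ S} with hV
  set S' : Set X := {x | x ∈ S ∧ x + s ∉ S ∧ x + s ∉ T} with hS'
  set T' : Set X := {x | x ∈ T ∧ x + s ∉ S ∧ x + s ∉ T} with hT'
  have h1 : bd s S = S' ∪ U := by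
    ext x
    simp only [bd, hS', hU, mem_union, mem_ofPred_eq]
    have := hd' (x + s)
    tauto
  have h2 : bd s T = T' ∪ V := by
    ext x
    simp only [bd, hT', hV, mem_union, mem_ofPred_eq]
    have := hd' (x + s)
    tauto
  have h3 : bd s (S ∪ T) = S' ∪ T' := by
    ext x
    simp only [bd, hS', hT', mem_union, mem_ofPred_eq]
    tauto
  have h4 : V = shift s U := by
    ext x
    have e1 : x - s = x + s := by
      rw [sub_eq_add_neg, neg_eq_of_add_eq_zero_left hs]
    simp only [hU, hV, mem_shift, mem_ofPred_eq, e1, e2]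
    tauto
  rw [h1] at hS
  rw [h2] at hT
  have d1 : Disjoint S' U := Set.disjoint_left.2 fun x a b => a.2.2 b.2
  have d2 : Disjoint T' V := Set.disjoint_left.2 fun x a b => a.2.1 b.2
  have d3 : Disjoint S' T' := Set.disjoint_left.2 fun x a b => hd' x a.1 b.1
  rw [h1, h2, h3, Set.ncard_union_eq d1 (hS.subset subset_union_left) (hS.subset subset_union_right),
    Set.ncard_union_eq d2 (hT.subset subset_union_left) (hT.subset subset_union_right),
    Set.ncard_union_eq d3 (hS.subset subset_union_left) (hT.subset subset_union_left), h4,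
    ncard_shift]
  push_cast
  have : (U.ncard : ZMod 2) + U.ncard = 0 := CharTwo.add_self_eq_zero _
  linear_combination -this

theorem bd_iUnion {s : X} (hs : s + s = 0) : ∀ (k : ℕ) (P : Fin k → Set X),
    (∀ i, (bd s (P i)).Finite) → (Pairwise fun i j => Disjoint (P i) (P j)) →
    (bd s (⋃ i, P i)).Finite ∧
      ((bd s (⋃ i, P i)).ncard : ZMod 2) = ∑ i, ((bd s (P i)).ncard : ZMod 2) := by
  intro k
  induction k with
  | zero =>
    intro P _ _
    have : bd s (⋃ i, P i) = ∅ := by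
      ext x
      simp [bd]
    rw [this]
    simp
  | succ k ih =>
    intro P hP hd
    obtain ⟨f1, f2⟩ := ih (fun i => P i.succ) (fun i => hP _)
      (fun i j hij => hd (fun h => hij (Fin.succ_injective _ h)))
    have hu : (⋃ i, P i) = P 0 ∪ ⋃ i : Fin k, P i.succ := by
      ext x
      simp [Fin.exists_fin_succ]
    have hdis : Disjoint (P 0) (⋃ i : Fin k, P i.succ) :=
      Set.disjoint_iUnion_right.2 fun i => hd (Fin.succ_ne_zero i).symm
    rw [hu]
    refine ⟨((hP 0).union f1).subset (bd_union_subset _ _ _), ?_⟩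
    rw [bd_add hs (hP 0) f1 hdis, f2, Fin.sum_univ_succ]

theorem parity_of_equi {s : X} (hs : s + s = 0) {𝒜 : Set (Set X)}
    (h𝒜 : ∀ S ∈ 𝒜, (bd s S).Finite) {A B : Set X} (h : Equi 𝒜 A B) :
    ((bd s A).ncard : ZMod 2) = (bd s B).ncard := by
  obtain ⟨k, P, g, h1, h2, h3, rfl, h4, rfl⟩ := h
  rw [(bd_iUnion hs k P (fun i => h𝒜 _ (h1 i)) h3).2,
    (bd_iUnion hs k _ (fun i => h𝒜 _ (h2 i)) h4).2]
  refine Finset.sum_congr rfl fun i _ => ?_
  rw [bd_shift, ncard_shift]

/-- the set `L = {n a, n a + s : n ≥ 0}` -/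
def ray (a s : X) : Set X := {x | ∃ n : ℕ, x = n • a ∨ x = n • a + s}

theorem ray_countable (a s : X) : (ray a s).Countable := by
  have : ray a s = range (fun n : ℕ => n • a) ∪ range (fun n : ℕ => n • a + s) := by
    ext x
    simp only [ray, mem_ofPred_eq, mem_union, mem_range]
    constructor
    · rintro ⟨n, h | h⟩
      · exact Or.inl ⟨n, h.symm⟩
      · exact Or.inr ⟨n, h.symm⟩
    · rintro (⟨n, h⟩ | ⟨n, h⟩)
      · exact ⟨n, Or.inl h.symm⟩
      · exact ⟨n, Or.inr h.symm⟩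
  rw [this]
  exact (countable_range _).union (countable_range _)

theorem ray_add {a s : X} (hs : s + s = 0) {x : X} (h : x ∈ ray a s) : x + s ∈ ray a s := by
  obtain ⟨n, rfl | rfl⟩ := h
  · exact ⟨n, Or.inr rfl⟩
  · exact ⟨n, Or.inl (by rw [add_assoc, hs, add_zero])⟩

theorem neg_not_mem_ray {a s : X} (hs : s + s = 0) (ha : ∀ n : ℕ, (n + 1) • a ≠ 0) :
    -a ∉ ray a s := by
  rintro ⟨n, h | h⟩
  · apply ha n
    rw [succ_nsmul, ← h, neg_add_cancel]
  · apply ha (2 * n + 1)
    have h1 : (n + 1) • a + s = 0 := by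
      rw [succ_nsmul, add_right_comm, ← h, neg_add_cancel]
    have h2 : (2 * n + 1 + 1) • a = ((n + 1) • a + s) + ((n + 1) • a + s) - (s + s) := by
      rw [show 2 * n + 1 + 1 = (n + 1) + (n + 1) by ring, add_nsmul]
      abel
    rw [h2, h1, hs]
    simp

theorem mem_ray_iff {a s : X} {x : X} :
    x ∈ ray a s ↔ x = 0 ∨ x = s ∨ x - a ∈ ray a s := by
  constructor
  · rintro ⟨n, h⟩
    cases n with
    | zero =>
      rcases h with h | h
      · exact Or.inl (by simpa using h)
      · exact Or.inr (Or.inl (by simpa using h))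
    | succ n =>
      refine Or.inr (Or.inr ⟨n, ?_⟩)
      rcases h with rfl | rfl
      · left
        rw [succ_nsmul]
        abel
      · right
        rw [succ_nsmul]
        abel
  · rintro (rfl | rfl | ⟨n, h | h⟩)
    · exact ⟨0, Or.inl (by simp)⟩
    · exact ⟨0, Or.inr (by simp)⟩
    · exact ⟨n + 1, Or.inl (by rw [succ_nsmul, ← h]; abel)⟩
    · refine ⟨n + 1, Or.inr ?_⟩
      rw [succ_nsmul, add_right_comm, ← h]
      abel

theorem bd_ray {a s : X} (hs : s + s = 0) : bd s (ray a s) = ∅ := by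
  ext x
  simp only [bd, mem_ofPred_eq, mem_empty_iff_false, iff_false, not_and, not_not]
  exact ray_add hs

theorem bd_ray_insert {a s : X} (hs : s + s = 0) (hs0 : s ≠ 0)
    (ha : ∀ n : ℕ, (n + 1) • a ≠ 0) : bd s (ray a s ∪ {-a}) = {-a} := by
  ext x
  simp only [bd, mem_ofPred_eq, mem_union, mem_singleton_iff]
  constructor
  · rintro ⟨h1 | h1, h2⟩
    · exact absurd (Or.inl (ray_add hs h1)) h2
    · exact h1
  · rintro rfl
    refine ⟨Or.inr rfl, ?_⟩
    rintro (h | h)
    · have := ray_add hs h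
      rw [add_assoc, hs, add_zero] at this
      exact neg_not_mem_ray hs ha this
    · exact hs0 (by simpa using h)

theorem shift_singleton (t x : X) : shift t ({x} : Set X) = {x + t} := by
  simp [shift]

theorem shift_shift (t u : X) (S : Set X) : shift t (shift u S) = shift (u + t) S := by
  ext x
  simp only [mem_shift]
  rw [show x - t - u = x - (u + t) by abel]

theorem shift_zero (S : Set X) : shift 0 S = S := by
  ext x
  simp [mem_shift]

theorem equiMul_ray {a s : X} (hs : s + s = 0) (hs0 : s ≠ 0) (ha : ∀ n : ℕ, (n + 1) • a ≠ 0)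
    {𝒜 : Set (Set X)} (hpt : ∀ x : X, ({x} : Set X) ∈ 𝒜) (hray : ∀ t, shift t (ray a s) ∈ 𝒜) :
    EquiMul 𝒜 2 (ray a s) (ray a s ∪ {-a}) := by
  have hn := neg_not_mem_ray hs ha
  have hn' : s - a ∉ ray a s := fun h => hn (by
    have := ray_add hs h
    rwa [show s - a + s = s + s - a by abel, hs, zero_sub] at this)
  have hr : ray a s ∈ 𝒜 := by simpa [shift_zero] using hray 0
  have s1 : shift (-a) (shift a (ray a s)) = ray a s := by
    rw [shift_shift, add_neg_cancel, shift_zero]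
  have s2 : shift (-a) ({0} : Set X) = {-a} := by rw [shift_singleton, zero_add]
  have s3 : shift (-a - s) ({s} : Set X) = {-a} := by
    rw [shift_singleton]
    congr 1
    abel
  refine ⟨4, ![ray a s, shift a (ray a s), {0}, {s}], ![0, -a, -a, -a - s], ![1, 0, 0, 0],
    ![1, 0, 0, 1], ?_, ?_, ?_, ?_, ?_, ?_⟩
  · intro i
    fin_cases i
    · exact hr
    · exact hray a
    · exact hpt _
    · exact hpt _
  · intro i
    fin_cases i
    · exact hray 0
    · simpa [s1] using hr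
    · simpa [s2] using hpt _
    · simpa [s3] using hpt _
  · intro i j hij
    fin_cases i <;> fin_cases j <;>
      simp [Set.disjoint_prod, mem_shift, hn, hn', hs0, hs0.symm] at hij ⊢
  · ext ⟨x, m⟩
    simp only [mem_iUnion, Fin.exists_fin_succ, mem_prod, mem_Iio, Matrix.cons_val_zero,
      Matrix.cons_val_succ, mem_singleton_iff, mem_shift, IsEmpty.exists_iff, or_false]
    have := @mem_ray_iff X _ a s x
    constructor
    · rintro (⟨h, rfl⟩ | ⟨h, rfl⟩ | ⟨h, rfl⟩ | ⟨h, rfl⟩)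
      · exact ⟨h, by norm_num⟩
      · exact ⟨this.2 (Or.inr (Or.inr h)), by norm_num⟩
      · exact ⟨this.2 (Or.inl h), by norm_num⟩
      · exact ⟨this.2 (Or.inr (Or.inl h)), by norm_num⟩
    · rintro ⟨h, hm⟩
      obtain rfl | rfl : m = 0 ∨ m = 1 := by omega
      · rcases this.1 h with h | h | h
        · exact Or.inr (Or.inr (Or.inl ⟨h, rfl⟩))
        · exact Or.inr (Or.inr (Or.inr ⟨h, rfl⟩))
        · exact Or.inr (Or.inl ⟨h, rfl⟩)
      · exact Or.inl ⟨h, rfl⟩
  · intro i j hij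
    fin_cases i <;> fin_cases j <;>
      simp [Set.disjoint_prod, s1, s2, s3, shift_zero, hn] at hij ⊢
  · ext ⟨x, m⟩
    simp only [mem_iUnion, Fin.exists_fin_succ, mem_prod, mem_Iio, Matrix.cons_val_zero,
      Matrix.cons_val_succ, mem_singleton_iff, IsEmpty.exists_iff, or_false, s1, s2, s3,
      shift_zero, mem_union]
    constructor
    · rintro (⟨h, rfl⟩ | ⟨h, rfl⟩ | ⟨h, rfl⟩ | ⟨h, rfl⟩)
      · exact ⟨Or.inl h, by norm_num⟩
      · exact ⟨Or.inl h, by norm_num⟩
      · exact ⟨Or.inr h, by norm_num⟩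
      · exact ⟨Or.inr h, by norm_num⟩
    · rintro ⟨h, hm⟩
      obtain rfl | rfl : m = 0 ∨ m = 1 := by omega
      · rcases h with h | h
        · exact Or.inr (Or.inl ⟨h, rfl⟩)
        · exact Or.inr (Or.inr (Or.inl ⟨h, rfl⟩))
      · rcases h with h | h
        · exact Or.inl ⟨h, rfl⟩
        · exact Or.inr (Or.inr (Or.inr ⟨h, rfl⟩))

end general

theorem half_add_half : (((1 / 2 : ℝ) : UnitAddCircle)) + ((1 / 2 : ℝ) : UnitAddCircle) = 0 := by
  rw [← AddCircle.coe_add]
  norm_num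

theorem half_ne_zero : (((1 / 2 : ℝ) : UnitAddCircle)) ≠ 0 := by
  intro h
  obtain ⟨n, hn⟩ := (AddCircle.coe_eq_zero_iff _).1 h
  rw [zsmul_eq_mul, mul_one] at hn
  have h1 : (2 * n : ℝ) = 1 := by rw [hn]; norm_num
  have h2 : 2 * n = 1 := by exact_mod_cast h1
  omega

theorem sqrt_order (n : ℕ) : (n + 1) • ((Real.sqrt 2 : ℝ) : UnitAddCircle) ≠ 0 := by
  intro h
  rw [← AddCircle.coe_nsmul] at h
  obtain ⟨m, hm⟩ := (AddCircle.coe_eq_zero_iff _).1 h
  rw [zsmul_eq_mul, mul_one, nsmul_eq_mul] at hm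
  have h1 : Irrational (((n + 1 : ℕ) : ℝ) * Real.sqrt 2) :=
    irrational_sqrt_two.natCast_mul (Nat.succ_ne_zero n)
  exact h1.ne_int m hm.symm

/-- On the circle group `ℝ/ℤ` there is a translation invariant algebra of Borel sets for which the
cancellation law fails (already for `n = 2`). -/
theorem result :
    ∃ 𝒜 : Set (Set UnitAddCircle),
      univ ∈ 𝒜 ∧ (∀ S ∈ 𝒜, Sᶜ ∈ 𝒜) ∧ (∀ S ∈ 𝒜, ∀ T ∈ 𝒜, S ∪ T ∈ 𝒜) ∧
      (∀ S ∈ 𝒜, ∀ t : UnitAddCircle, shift t S ∈ 𝒜) ∧
      (∀ S ∈ 𝒜, @MeasurableSet _ (borel UnitAddCircle) S) ∧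
      (∃ A ∈ 𝒜, ∃ B ∈ 𝒜, EquiMul 𝒜 2 A B ∧ ¬ Equi 𝒜 A B) ∧ ¬ Cancellation 𝒜 := by
  set s : UnitAddCircle := ((1 / 2 : ℝ) : UnitAddCircle) with hsdef
  set a : UnitAddCircle := ((Real.sqrt 2 : ℝ) : UnitAddCircle) with hadef
  have hs : s + s = 0 := half_add_half
  have hs0 : s ≠ 0 := half_ne_zero
  have ha : ∀ n : ℕ, (n + 1) • a ≠ 0 := sqrt_order
  have hb : ∀ S : Set UnitAddCircle, @MeasurableSet _ (borel UnitAddCircle) S ↔ MeasurableSet S := by
    intro S
    rw [← BorelSpace.measurable_eq]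
  set 𝒜 : Set (Set UnitAddCircle) := {S | MeasurableSet S ∧ (bd s S).Finite} with h𝒜
  have hshift : ∀ S ∈ 𝒜, ∀ t : UnitAddCircle, shift t S ∈ 𝒜 := by
    rintro S ⟨h1, h2⟩ t
    refine ⟨?_, by rw [bd_shift]; exact finite_shift t h2⟩
    have : shift t S = (fun x => x - t) ⁻¹' S := by
      ext x
      simp [mem_shift]
    rw [this]
    exact (measurable_id.sub_const t) h1
  have hray : ray a s ∈ 𝒜 :=
    ⟨(ray_countable a s).measurableSet, by rw [bd_ray hs]; exact finite_empty⟩
  have hpt : ∀ x : UnitAddCircle, ({x} : Set UnitAddCircle) ∈ 𝒜 := fun x =>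
    ⟨measurableSet_singleton x, (finite_singleton x).subset fun y hy => hy.1⟩
  have hun : ∀ S ∈ 𝒜, ∀ T ∈ 𝒜, S ∪ T ∈ 𝒜 := by
    rintro S ⟨h1, h2⟩ T ⟨h3, h4⟩
    exact ⟨h1.union h3, (h2.union h4).subset (bd_union_subset _ _ _)⟩
  have hB := hun _ hray _ (hpt (-a))
  have hE := equiMul_ray hs hs0 ha hpt (hshift _ hray)
  have hN : ¬ Equi 𝒜 (ray a s) (ray a s ∪ {-a}) := by
    intro h
    have := parity_of_equi hs (fun S hS => hS.2) h
    rw [bd_ray hs, bd_ray_insert hs hs0 ha] at this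
    simp at this
  refine ⟨𝒜, ⟨MeasurableSet.univ, ?_⟩, ?_, hun, hshift, fun S hS => (hb S).2 hS.1,
    ⟨_, hray, _, hB, hE, hN⟩, fun h => hN (h _ hray _ hB 2 (by norm_num) hE)⟩
  · have : bd s (univ : Set UnitAddCircle) = ∅ := by
      ext x
      simp [bd]
    rw [this]
    exact finite_empty
  · rintro S ⟨h1, h2⟩
    exact ⟨h1.compl, by rw [bd_compl hs]; exact finite_shift s h2⟩

end Pool.Agent.Results.MP_59868e_an.CircleBorel
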